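import Pool.Agent.FS.BottSamelson2.Exist

set_option autoImplicit false

namespace FS8e5b3d.Variants.TraceProducts

open Polynomial Pool.Agent.Lib.MP_8e5b3d_co

/-- Left multiplication by `h = Σ a_u T_u` in the Hecke algebra over `ℤ[q]`, where `T_u` acts as
`T_{s_1} ⋯ T_{s_k}` for a chosen reduced word `u = s_1 ⋯ s_k`. -/
noncomputable def lmul {B W : Type} [Group W] {M : CoxeterMatrix B} (cs : CoxeterSystem M W)
    (h : W →₀ ℤ[X]) : Module.End ℤ[X] (W →₀ ℤ[X]) :=
  h.sum fun u a => a • ((cs.exists_isReduced u).choose.map (mulT cs X)).prod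

/-- Let `(W, S)` be any Coxeter system and `C_x = Σ_u P_{u,x}(q) T_u`.  For all `x_1, …, x_r` in
`W`, the coefficient of `T_e` in `C_{x_1} ⋯ C_{x_r}` is `P_{e,w}` for an element `w` of some
Coxeter system, of finite rank if `W` is. -/
theorem result {B W : Type} [Group W] {M : CoxeterMatrix B} (cs : CoxeterSystem M W) :
    ∃ C : W → (W →₀ ℤ[X]), (∀ x P, IsKLColumn cs x P ↔ P = C x) ∧
      ∀ l : List W, ∃ (B' : Type) (M' : CoxeterMatrix B') (w : M'.Group),
        (Finite B → Finite B') ∧ (∃! P, IsKLColumn M'.toCoxeterSystem w P) ∧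
        ∀ P, IsKLColumn M'.toCoxeterSystem w P →
          P 1 = (l.map fun x => lmul cs (C x)).prod (Finsupp.single 1 1) 1 := by
  choose C hC using FS8e5b3d.exists_kl cs
  refine ⟨C, fun x P => ⟨fun h => IsKLColumn.unique _ h (hC x), fun h => h ▸ hC x⟩, fun l => ?_⟩
  obtain ⟨K, hK, w, P, hP, h1⟩ := FS8e5b3d.main cs (l.map fun x => (x, C x)) fun p hp => by
    obtain ⟨x, _, rfl⟩ := List.mem_map.mp hp
    exact hC x
  refine ⟨_, FS8e5b3d.ext M K, w, fun _ => inferInstance,
    ⟨P, hP, fun Q hQ => IsKLColumn.unique _ hQ hP⟩, fun Q hQ => ?_⟩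
  rw [IsKLColumn.unique _ hQ hP, h1, List.map_map]
  rfl

end FS8e5b3d.Variants.TraceProducts
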